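import Pool.Agent.R979.NN.Core

/-! # The asymptotic argument -/

set_option autoImplicit false

namespace Pool.Agent.R979.NN

open Finset Matrix Filter Topology

theorem rect {m n : ℕ} (hm : 0 < m) (hn : 0 < n)
    (τ C η η' M : ℝ) (hτ : 0 < τ) (hC : 0 < C) (hη : 0 < η) (hη' : 0 < η') (hηη : η' ≤ η)
    (hη2 : 64 * C * η' ≤ τ ^ 2) (hM : 0 < M) (hM2 : M ^ 2 = 2 * C / (η * τ))
    (E P : Matrix (Fin m) (Fin n) ℝ) (hnuc : nuc E ≤ C * √(m * n))
    (hmid : ∑ i ∈ univ.filter (fun i => η' * √(m * n) ≤ sv E i ∧ sv E i < η * √(m * n)), sv E i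
      ≤ τ ^ 2 / 16 * √(m * n))
    (hP : ∀ a b, P a b = 0 ∨ P a b = 1) (hPE : ∀ a b, P a b = 1 → E a b = 0) :
    Good τ E ∨ ∃ (S : Finset (Fin m)) (T : Finset (Fin n)),
      dens τ C M (C / η) * (m * n) ≤ S.card * T.card ∧
      ∑ a ∈ S, ∑ b ∈ T, P a b ≤ 16 * C * η' / τ ^ 2 * (m * n) := by
  classical
  obtain ⟨x, y, hy, hx, hE, -, -⟩ := svd E
  have hm' : (0 : ℝ) < m := by exact_mod_cast hm
  have hn' : (0 : ℝ) < n := by exact_mod_cast hn
  set N := √((m : ℝ) * n) with hN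
  have hN0 : 0 < N := Real.sqrt_pos.2 (mul_pos hm' hn')
  have hN2 : N * N = m * n := Real.mul_self_sqrt (mul_pos hm' hn').le
  have hNm : √(m : ℝ) * √(n : ℝ) = N := (Real.sqrt_mul hm'.le _).symm
  have hx1 : ∀ i, ∑ a, x i a ^ 2 ≤ 1 := by
    intro i
    have := hx i i
    simp_rw [sq]
    rw [this]
    split_ifs <;> norm_num
  have hy1 : ∀ i, ∑ a, y i a ^ 2 ≤ 1 := by
    intro i
    have := hy i i
    simp_rw [sq]
    rw [this]
    simp
  refine core hm hn τ C η η' M hτ hC hη hηη hη2 hM hM2 (fun i => sv E i / N)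
    (fun i a => √m * x i a) (fun i b => √n * y i b) (fun i => div_nonneg (sv_nonneg E i) hN0.le)
    ?_ ?_ ?_ E P ?_ ?_ ?_ hP hPE
  · rw [← Finset.sum_div, div_le_iff₀ hN0]
    exact hnuc
  · intro i
    calc ∑ a, (√(m : ℝ) * x i a) ^ 2 = m * ∑ a, x i a ^ 2 := by
          rw [Finset.mul_sum]
          refine Finset.sum_congr rfl fun a _ => ?_
          rw [mul_pow, Real.sq_sqrt hm'.le]
      _ ≤ m * 1 := mul_le_mul_of_nonneg_left (hx1 i) hm'.le
      _ = m := mul_one _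
  · intro i
    calc ∑ a, (√(n : ℝ) * y i a) ^ 2 = n * ∑ a, y i a ^ 2 := by
          rw [Finset.mul_sum]
          refine Finset.sum_congr rfl fun a _ => ?_
          rw [mul_pow, Real.sq_sqrt hn'.le]
      _ ≤ n * 1 := mul_le_mul_of_nonneg_left (hy1 i) hn'.le
      _ = n := mul_one _
  · intro a b
    rw [hE]
    refine Finset.sum_congr rfl fun i _ => ?_
    have h1 : sv E i / N * (√(m : ℝ) * x i a) * (√(n : ℝ) * y i b) =
        sv E i / N * (√(m : ℝ) * √(n : ℝ)) * x i a * y i b := by ring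
    rw [h1, hNm, div_mul_cancel₀ _ hN0.ne']
  · have h1 : ∀ a b, ∑ i ∈ univ.filter (fun i => sv E i / N < η'),
        sv E i / N * (√(m : ℝ) * x i a) * (√(n : ℝ) * y i b) =
        ∑ i, (if sv E i / N < η' then sv E i else 0) * x i a * y i b := by
      intro a b
      rw [Finset.sum_filter]
      refine Finset.sum_congr rfl fun i _ => ?_
      split_ifs
      · have h1 : sv E i / N * (√(m : ℝ) * x i a) * (√(n : ℝ) * y i b) =
            sv E i / N * (√(m : ℝ) * √(n : ℝ)) * x i a * y i b := by ring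
        rw [h1, hNm, div_mul_cancel₀ _ hN0.ne']
      · simp
    simp_rw [h1]
    refine (fsq_lin x y _ hx hy _).trans ?_
    calc ∑ i, (if sv E i / N < η' then sv E i else 0) ^ 2 ≤ ∑ i, η' * N * sv E i := by
          refine Finset.sum_le_sum fun i _ => ?_
          have h2 := sv_nonneg E i
          split_ifs with h
          · rw [div_lt_iff₀ hN0] at h
            rw [sq]
            exact mul_le_mul_of_nonneg_right h.le h2
          · rw [zero_pow two_ne_zero]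
            positivity
      _ = η' * N * nuc E := by rw [← Finset.mul_sum]; rfl
      _ ≤ η' * N * (C * N) := mul_le_mul_of_nonneg_left hnuc (by positivity)
      _ = η' * C * (N * N) := by ring
      _ = η' * C * (m * n) := by rw [hN2]
  · have h1 : (univ.filter fun i => η' ≤ sv E i / N ∧ sv E i / N < η) =
        univ.filter (fun i => η' * N ≤ sv E i ∧ sv E i < η * N) := by
      ext i
      rw [Finset.mem_filter, Finset.mem_filter, le_div_iff₀ hN0, div_lt_iff₀ hN0]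
    rw [h1, ← Finset.sum_div, div_le_iff₀ hN0]
    exact hmid

/-- every rectangle of positive density contains a positive density of revealed positions -/
def Spread (m n : ℕ → ℕ) (P : ∀ k, Matrix (Fin (m k)) (Fin (n k)) ℝ) : Prop :=
  ∀ β : ℝ, 0 < β → ∃ δ : ℝ, 0 < δ ∧ ∀ᶠ k in atTop, ∀ (S : Finset (Fin (m k)))
    (T : Finset (Fin (n k))), β * (m k * n k) ≤ S.card * T.card →
      δ * (m k * n k) < ∑ a ∈ S, ∑ b ∈ T, P k a b

lemma dens_pos {τ C M c : ℝ} (hτ : 0 < τ) (hC : 0 < C) (hM : 0 < M) : 0 < dens τ C M c := by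
  unfold dens
  positivity

/-- the energy of the singular values in a window -/
noncomputable def win {m n : ℕ} (E : Matrix (Fin m) (Fin n) ℝ) (u v : ℝ) : ℝ :=
  ∑ i ∈ univ.filter (fun i => u * √(m * n) ≤ sv E i ∧ sv E i < v * √(m * n)), sv E i

lemma win_nonneg {m n : ℕ} (E : Matrix (Fin m) (Fin n) ℝ) (u v : ℝ) : 0 ≤ win E u v :=
  Finset.sum_nonneg fun i _ => sv_nonneg E i

lemma win_le {m n : ℕ} (E : Matrix (Fin m) (Fin n) ℝ) (u v : ℝ) : win E u v ≤ nuc E :=
  Finset.sum_le_sum_of_subset_of_nonneg (Finset.subset_univ _) fun i _ _ => sv_nonneg E i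

lemma win_add {m n : ℕ} (E : Matrix (Fin m) (Fin n) ℝ) (u v w : ℝ) (huv : u ≤ v) (hvw : v ≤ w) :
    win E u v + win E v w = win E u w := by
  unfold win
  rw [Finset.sum_filter, Finset.sum_filter, Finset.sum_filter, ← Finset.sum_add_distrib]
  refine Finset.sum_congr rfl fun i _ => ?_
  have hN : 0 ≤ √((m : ℝ) * n) := Real.sqrt_nonneg _
  have h1 := mul_le_mul_of_nonneg_right huv hN
  have h2 := mul_le_mul_of_nonneg_right hvw hN
  rcases lt_or_ge (sv E i) (v * √((m : ℝ) * n)) with h3 | h3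
  · have h4 : sv E i < w * √((m : ℝ) * n) := lt_of_lt_of_le h3 h2
    simp only [h3, h4, not_le.2 h3, and_true, if_false, add_zero]
  · have h4 : u * √((m : ℝ) * n) ≤ sv E i := h1.trans h3
    simp only [h3, h4, not_lt.2 h3, and_false, true_and, if_false, zero_add]

lemma step {m n : ℕ → ℕ} {P : ∀ k, Matrix (Fin (m k)) (Fin (n k)) ℝ}
    (hm : Tendsto m atTop atTop) (hn : Tendsto n atTop atTop)
    (hP : ∀ k a b, P k a b = 0 ∨ P k a b = 1) (hS : Spread m n P) {τ C : ℝ} (hτ : 0 < τ)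
    (hC : 0 < C) (η : ℝ) (hη : 0 < η) :
    ∃ η' : ℝ, 0 < η' ∧ η' ≤ η ∧ ∀ᶠ k in atTop, ∀ E : Matrix (Fin (m k)) (Fin (n k)) ℝ,
      nuc E ≤ C * √(m k * n k) → (∀ a b, P k a b = 1 → E a b = 0) →
      Good τ E ∨ τ ^ 2 / 16 * √(m k * n k) ≤ win E η' η := by
  have hM : 0 < √(2 * C / (η * τ)) := Real.sqrt_pos.2 (by positivity)
  have hM2 : √(2 * C / (η * τ)) ^ 2 = 2 * C / (η * τ) := Real.sq_sqrt (by positivity)
  obtain ⟨δ, hδ, hev⟩ := hS _ (dens_pos (c := C / η) hτ hC hM)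
  refine ⟨min η (min (τ ^ 2 / (64 * C)) (δ * τ ^ 2 / (16 * C))), by positivity, min_le_left _ _, ?_⟩
  set η' := min η (min (τ ^ 2 / (64 * C)) (δ * τ ^ 2 / (16 * C))) with hη'
  have h0 : 0 < η' := by positivity
  have h1 : η' ≤ η := min_le_left _ _
  have h2 : 64 * C * η' ≤ τ ^ 2 := by
    have : η' ≤ τ ^ 2 / (64 * C) := (min_le_right _ _).trans (min_le_left _ _)
    rw [le_div_iff₀ (by positivity)] at this
    linarith
  have h3 : 16 * C * η' / τ ^ 2 ≤ δ := by
    have : η' ≤ δ * τ ^ 2 / (16 * C) := (min_le_right _ _).trans (min_le_right _ _)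
    rw [le_div_iff₀ (by positivity)] at this
    rw [div_le_iff₀ (by positivity)]
    linarith
  filter_upwards [hev, hm.eventually_gt_atTop 0, hn.eventually_gt_atTop 0] with k hk hmk hnk E
    hE hEP
  by_contra hcon
  rw [not_or, not_le] at hcon
  rcases rect hmk hnk τ C η η' _ hτ hC hη h0 h1 h2 hM hM2 E (P k) hE hcon.2.le (hP k) hEP with
    h4 | ⟨S, T, h4, h5⟩
  · exact hcon.1 h4
  · have h6 := hk S T h4
    have h7 : 16 * C * η' / τ ^ 2 * ((m k : ℝ) * n k) ≤ δ * (m k * n k) :=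
      mul_le_mul_of_nonneg_right h3 (by positivity)
    linarith

lemma iter {m n : ℕ → ℕ} {P : ∀ k, Matrix (Fin (m k)) (Fin (n k)) ℝ}
    (hm : Tendsto m atTop atTop) (hn : Tendsto n atTop atTop)
    (hP : ∀ k a b, P k a b = 0 ∨ P k a b = 1) (hS : Spread m n P) {τ C : ℝ} (hτ : 0 < τ)
    (hC : 0 < C) (j : ℕ) : ∀ (η : ℝ), 0 < η →
    ∃ η' : ℝ, 0 < η' ∧ η' ≤ η ∧ ∀ᶠ k in atTop, ∀ E : Matrix (Fin (m k)) (Fin (n k)) ℝ,
      nuc E ≤ C * √(m k * n k) → (∀ a b, P k a b = 1 → E a b = 0) →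
      Good τ E ∨ j * (τ ^ 2 / 16 * √(m k * n k)) ≤ win E η' η := by
  induction j with
  | zero =>
    intro η hη
    refine ⟨η, hη, le_rfl, Eventually.of_forall fun k E _ _ => Or.inr ?_⟩
    rw [Nat.cast_zero, zero_mul]
    exact win_nonneg _ _ _
  | succ j ih =>
    intro η hη
    obtain ⟨η1, h1, h2, h3⟩ := step hm hn hP hS hτ hC η hη
    obtain ⟨η2, h4, h5, h6⟩ := ih η1 h1
    refine ⟨η2, h4, h5.trans h2, ?_⟩
    filter_upwards [h3, h6] with k hk hk' E hE hEP
    rcases hk E hE hEP with h7 | h7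
    · exact Or.inl h7
    · rcases hk' E hE hEP with h8 | h8
      · exact Or.inl h8
      · right
        rw [← win_add E η2 η1 η h5 h2]
        push_cast
        linarith

theorem allGood {m n : ℕ → ℕ} {P : ∀ k, Matrix (Fin (m k)) (Fin (n k)) ℝ}
    (hm : Tendsto m atTop atTop) (hn : Tendsto n atTop atTop)
    (hP : ∀ k a b, P k a b = 0 ∨ P k a b = 1) (hS : Spread m n P) {τ C : ℝ} (hτ : 0 < τ)
    (hC : 0 < C) : ∀ᶠ k in atTop, ∀ E : Matrix (Fin (m k)) (Fin (n k)) ℝ,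
      nuc E ≤ C * √(m k * n k) → (∀ a b, P k a b = 1 → E a b = 0) → Good τ E := by
  obtain ⟨j, hj⟩ := exists_nat_gt (C / (τ ^ 2 / 16))
  rw [div_lt_iff₀ (by positivity)] at hj
  obtain ⟨η', h1, h2, h3⟩ := iter hm hn hP hS hτ hC j 1 one_pos
  filter_upwards [h3, hm.eventually_gt_atTop 0, hn.eventually_gt_atTop 0] with k hk hmk hnk E
    hE hEP
  rcases hk E hE hEP with h4 | h4
  · exact h4
  · exfalso
    have hmk' : (0 : ℝ) < m k := by exact_mod_cast hmk
    have hnk' : (0 : ℝ) < n k := by exact_mod_cast hnk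
    have hN : 0 < √((m k : ℝ) * n k) := Real.sqrt_pos.2 (mul_pos hmk' hnk')
    have h5 := (h4.trans (win_le _ _ _)).trans hE
    have h6 : C * √((m k : ℝ) * n k) < j * (τ ^ 2 / 16) * √((m k : ℝ) * n k) :=
      mul_lt_mul_of_pos_right hj hN
    linarith

end Pool.Agent.R979.NN
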