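import Pool.Agent.R979.NN.Rect

/-! # The rectangle lemma: either few rows and columns carry the energy, or there is a
rectangle of positive density with few revealed positions -/

set_option autoImplicit false

namespace Pool.Agent.R979.NN

open Finset Matrix

/-- outside few rows and columns the energy is small -/
def Good {m n : ℕ} (τ : ℝ) (E : Matrix (Fin m) (Fin n) ℝ) : Prop :=
  ∃ (I : Finset (Fin m)) (J : Finset (Fin n)), (I.card : ℝ) ≤ τ * m ∧ (J.card : ℝ) ≤ τ * n ∧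
    fsq (msk (· ∉ I) (· ∉ J) E) ≤ τ ^ 2 * (m * n)

/-- the density of the rectangle -/
noncomputable def dens (τ C M c : ℝ) : ℝ :=
  3 / 16 * τ ^ 2 / (C ^ 2 * M ^ 4) / ((2 * ⌈M / (τ / (16 * C * M))⌉₊ + 2 : ℝ) ^ ⌊c⌋₊) ^ 2

theorem core {m n : ℕ} {ι : Type*} [Fintype ι] [DecidableEq ι] (hm : 0 < m) (hn : 0 < n)
    (τ C η η' M : ℝ) (hτ : 0 < τ) (hC : 0 < C) (hη : 0 < η) (hηη : η' ≤ η)
    (hη2 : 64 * C * η' ≤ τ ^ 2) (hM : 0 < M) (hM2 : M ^ 2 = 2 * C / (η * τ))
    (σ : ι → ℝ) (X : ι → Fin m → ℝ) (Y : ι → Fin n → ℝ) (hσ : ∀ i, 0 ≤ σ i)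
    (hσC : ∑ i, σ i ≤ C)
    (hX : ∀ i, ∑ a, X i a ^ 2 ≤ m) (hY : ∀ i, ∑ b, Y i b ^ 2 ≤ n)
    (E P : Matrix (Fin m) (Fin n) ℝ) (hE : ∀ a b, E a b = ∑ i, σ i * X i a * Y i b)
    (hr : ∑ a, ∑ b, (∑ i ∈ univ.filter (fun i => σ i < η'), σ i * X i a * Y i b) ^ 2
      ≤ η' * C * (m * n))
    (hmid : ∑ i ∈ univ.filter (fun i => η' ≤ σ i ∧ σ i < η), σ i ≤ τ ^ 2 / 16)
    (hP : ∀ a b, P a b = 0 ∨ P a b = 1) (hPE : ∀ a b, P a b = 1 → E a b = 0) :
    Good τ E ∨ ∃ (S : Finset (Fin m)) (T : Finset (Fin n)),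
      dens τ C M (C / η) * (m * n) ≤ S.card * T.card ∧
      ∑ a ∈ S, ∑ b ∈ T, P a b ≤ 16 * C * η' / τ ^ 2 * (m * n) := by
  classical
  set G1 := univ.filter fun i => η ≤ σ i with hG1
  set G2 := univ.filter fun i => η' ≤ σ i ∧ σ i < η with hG2
  set G3 := univ.filter fun i => σ i < η' with hG3
  set I := univ.filter fun a : Fin m =>
    (∃ i ∈ G1, M ^ 2 < X i a ^ 2) ∨ τ / 8 < ∑ i ∈ G2, σ i * X i a ^ 2 with hI
  set J := univ.filter fun a : Fin n =>
    (∃ i ∈ G1, M ^ 2 < Y i a ^ 2) ∨ τ / 8 < ∑ i ∈ G2, σ i * Y i a ^ 2 with hJ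
  have hG1s : ∑ i ∈ G1, σ i ≤ C :=
    (Finset.sum_le_sum_of_subset_of_nonneg (Finset.subset_univ _) fun i _ _ => hσ i).trans hσC
  have hG1c : (G1.card : ℝ) * η ≤ C := by
    calc (G1.card : ℝ) * η = ∑ _i ∈ G1, η := by simp
      _ ≤ ∑ i ∈ G1, σ i := Finset.sum_le_sum fun i hi => (Finset.mem_filter.1 hi).2
      _ ≤ C := hG1s
  have hG1c2 : (G1.card : ℝ) ≤ τ / 2 * M ^ 2 := by
    have h1 : τ / 2 * (2 * C / (η * τ)) = C / η := by field_simp
    rw [hM2, h1, le_div_iff₀ hη]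
    exact hG1c
  have hG1n : G1.card ≤ ⌊C / η⌋₊ := Nat.le_floor (by rw [le_div_iff₀ hη]; exact hG1c)
  have hG2s : ∑ i ∈ G2, σ i ≤ τ / 2 * (τ / 8) := hmid.trans (le_of_eq (by ring))
  have hIc : (I.card : ℝ) ≤ τ * m := card_bad G1 G2 σ X hσ hX (M ^ 2) (τ / 8) τ (by positivity)
    (by positivity) hG1c2 hG2s I fun a ha => (Finset.mem_filter.1 ha).2
  have hJc : (J.card : ℝ) ≤ τ * n := card_bad G1 G2 σ Y hσ hY (M ^ 2) (τ / 8) τ (by positivity)
    (by positivity) hG1c2 hG2s J fun a ha => (Finset.mem_filter.1 ha).2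
  by_cases hgood : fsq (msk (· ∉ I) (· ∉ J) E) ≤ τ ^ 2 * (m * n)
  · exact Or.inl ⟨I, J, hIc, hJc, hgood⟩
  right
  rw [not_le] at hgood
  have hm' : (0 : ℝ) < m := by exact_mod_cast hm
  have hn' : (0 : ℝ) < n := by exact_mod_cast hn
  set g : Fin m → Fin n → ℝ := fun a b => ∑ i ∈ G1, σ i * X i a * Y i b with hg
  set t : Fin m → Fin n → ℝ := fun a b => ∑ i ∈ G2, σ i * X i a * Y i b with ht
  set r : Fin m → Fin n → ℝ := fun a b => ∑ i ∈ G3, σ i * X i a * Y i b with hrr
  have hsplit : ∀ a b, E a b = g a b + t a b + r a b := by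
    intro a b
    rw [hE]
    simp only [hg, ht, hrr, hG1, hG2, hG3, Finset.sum_filter]
    rw [← Finset.sum_add_distrib, ← Finset.sum_add_distrib]
    refine Finset.sum_congr rfl fun i _ => ?_
    rcases lt_or_ge (σ i) η' with h1 | h1
    · have h2 : σ i < η := lt_of_lt_of_le h1 hηη
      simp [h1, h2, not_le.2 h1, not_le.2 h2]
    · rcases lt_or_ge (σ i) η with h2 | h2
      · simp [h1, h2, not_lt.2 h1, not_le.2 h2]
      · simp [h1, h2, not_lt.2 h1, not_lt.2 h2]
  have hXM : ∀ a ∉ I, ∀ i ∈ G1, |X i a| ≤ M := by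
    intro a ha i hi
    refine abs_le_of_sq_le_sq (not_lt.1 fun h => ha ?_) hM.le
    exact Finset.mem_filter.2 ⟨Finset.mem_univ _, Or.inl ⟨i, hi, h⟩⟩
  have hYM : ∀ a ∉ J, ∀ i ∈ G1, |Y i a| ≤ M := by
    intro a ha i hi
    refine abs_le_of_sq_le_sq (not_lt.1 fun h => ha ?_) hM.le
    exact Finset.mem_filter.2 ⟨Finset.mem_univ _, Or.inl ⟨i, hi, h⟩⟩
  have htb : ∀ a ∉ I, ∀ b ∉ J, |t a b| ≤ τ / 8 := by
    intro a ha b hb
    have h1 : ∑ i ∈ G2, σ i * X i a ^ 2 ≤ τ / 8 :=
      not_lt.1 fun h => ha (Finset.mem_filter.2 ⟨Finset.mem_univ _, Or.inr h⟩)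
    have h2 : ∑ i ∈ G2, σ i * Y i b ^ 2 ≤ τ / 8 :=
      not_lt.1 fun h => hb (Finset.mem_filter.2 ⟨Finset.mem_univ _, Or.inr h⟩)
    calc |t a b| ≤ ∑ i ∈ G2, |σ i * X i a * Y i b| := Finset.abs_sum_le_sum_abs _ _
      _ ≤ ∑ i ∈ G2, (σ i * X i a ^ 2 + σ i * Y i b ^ 2) / 2 := by
          refine Finset.sum_le_sum fun i _ => ?_
          rw [mul_assoc, abs_mul, abs_of_nonneg (hσ i)]
          have h3 : |X i a * Y i b| ≤ (X i a ^ 2 + Y i b ^ 2) / 2 := by
            rw [abs_le]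
            constructor
            · nlinarith [sq_nonneg (X i a + Y i b)]
            · nlinarith [sq_nonneg (X i a - Y i b)]
          have h4 := mul_le_mul_of_nonneg_left h3 (hσ i)
          linarith
      _ = (∑ i ∈ G2, σ i * X i a ^ 2 + ∑ i ∈ G2, σ i * Y i b ^ 2) / 2 := by
          rw [← Finset.sum_div, Finset.sum_add_distrib]
      _ ≤ τ / 8 := by linarith
  have hgb : ∀ a ∉ I, ∀ b ∉ J, |g a b| ≤ C * M ^ 2 := by
    intro a ha b hb
    calc |g a b| ≤ ∑ i ∈ G1, |σ i * X i a * Y i b| := Finset.abs_sum_le_sum_abs _ _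
      _ ≤ ∑ i ∈ G1, σ i * M ^ 2 := by
          refine Finset.sum_le_sum fun i hi => ?_
          rw [mul_assoc, abs_mul, abs_of_nonneg (hσ i), abs_mul]
          refine mul_le_mul_of_nonneg_left ?_ (hσ i)
          rw [sq]
          exact mul_le_mul (hXM a ha i hi) (hYM b hb i hi) (abs_nonneg _) hM.le
      _ = (∑ i ∈ G1, σ i) * M ^ 2 := by rw [Finset.sum_mul]
      _ ≤ C * M ^ 2 := mul_le_mul_of_nonneg_right hG1s (sq_nonneg _)
  set U := univ.filter fun a : Fin m => a ∉ I with hU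
  set V := univ.filter fun b : Fin n => b ∉ J with hV
  set W := (U ×ˢ V).filter fun w => τ / 2 ≤ |g w.1 w.2| with hW
  have hUm : ∀ a, a ∈ U ↔ a ∉ I := fun a => by simp [hU]
  have hVm : ∀ b, b ∈ V ↔ b ∉ J := fun a => by simp [hV]
  have hpt : ∀ a b, msk (· ∉ I) (· ∉ J) E a b ^ 2 ≤
      9 / 16 * τ ^ 2 + 2 * (C ^ 2 * M ^ 4) * (if (a, b) ∈ W then 1 else 0) + 4 * r a b ^ 2 := by
    intro a b
    have hr0 : 0 ≤ 4 * r a b ^ 2 := by positivity
    have hW0 : (0 : ℝ) ≤ 2 * (C ^ 2 * M ^ 4) * (if (a, b) ∈ W then 1 else 0) := by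
      split_ifs
      · positivity
      · simp
    by_cases hab : a ∉ I ∧ b ∉ J
    · simp only [msk, if_pos hab]
      have h1 := htb a hab.1 b hab.2
      have h2 : t a b ^ 2 ≤ (τ / 8) ^ 2 := by
        rw [← sq_abs]
        exact pow_le_pow_left₀ (abs_nonneg _) h1 2
      have h3 : g a b ^ 2 ≤ τ ^ 2 / 4 + (C ^ 2 * M ^ 4) * (if (a, b) ∈ W then 1 else 0) := by
        by_cases hw : (a, b) ∈ W
        · rw [if_pos hw, mul_one]
          have h4 : g a b ^ 2 ≤ (C * M ^ 2) ^ 2 := by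
            rw [← sq_abs]
            exact pow_le_pow_left₀ (abs_nonneg _) (hgb a hab.1 b hab.2) 2
          have h5 : (C * M ^ 2) ^ 2 = C ^ 2 * M ^ 4 := by ring
          rw [h5] at h4
          nlinarith [sq_nonneg τ]
        · rw [if_neg hw, mul_zero, add_zero]
          have h4 : |g a b| < τ / 2 := by
            by_contra h
            refine hw (Finset.mem_filter.2 ⟨Finset.mem_product.2 ⟨(hUm a).2 hab.1,
              (hVm b).2 hab.2⟩, not_lt.1 h⟩)
          have h5 : g a b ^ 2 ≤ (τ / 2) ^ 2 := by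
            rw [← sq_abs]
            exact pow_le_pow_left₀ (abs_nonneg _) h4.le 2
          linarith
      rw [hsplit]
      nlinarith [sq_nonneg (g a b - (t a b + r a b)), sq_nonneg (t a b - r a b)]
    · simp only [msk, if_neg hab]
      nlinarith [sq_nonneg τ]
  have hWc : 3 / 16 * τ ^ 2 / (C ^ 2 * M ^ 4) * (m * n) ≤ W.card := by
    have h1 : fsq (msk (· ∉ I) (· ∉ J) E) ≤ 9 / 16 * τ ^ 2 * (m * n) +
        2 * (C ^ 2 * M ^ 4) * W.card + 4 * (η' * C * (m * n)) := by
      calc fsq (msk (· ∉ I) (· ∉ J) E) ≤ ∑ a, ∑ b, (9 / 16 * τ ^ 2 +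
            2 * (C ^ 2 * M ^ 4) * (if (a, b) ∈ W then 1 else 0) + 4 * r a b ^ 2) :=
            Finset.sum_le_sum fun a _ => Finset.sum_le_sum fun b _ => hpt a b
        _ = 9 / 16 * τ ^ 2 * (m * n) + 2 * (C ^ 2 * M ^ 4) * W.card +
            4 * ∑ a, ∑ b, r a b ^ 2 := by
            simp_rw [Finset.sum_add_distrib, ← Finset.mul_sum]
            congr 2
            · simp only [Finset.sum_const, Finset.card_univ, Fintype.card_fin, nsmul_eq_mul]
              ring
            · congr 1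
              rw [← Finset.sum_product' (f := fun a b => if (a, b) ∈ W then (1 : ℝ) else 0)]
              simp
        _ ≤ _ := by
            have := hr
            linarith
    have h2 : 4 * (η' * C * (m * n)) ≤ τ ^ 2 / 16 * (m * n) := by
      have h3 : 4 * (η' * C) ≤ τ ^ 2 / 16 := by linarith
      calc 4 * (η' * C * (m * n)) = 4 * (η' * C) * (m * n) := by ring
        _ ≤ _ := mul_le_mul_of_nonneg_right h3 (by positivity)
    rw [div_mul_eq_mul_div, div_le_iff₀ (by positivity)]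
    nlinarith
  have hW0 : W.Nonempty := by
    rw [← Finset.card_pos]
    have h1 : (0 : ℝ) < W.card := lt_of_lt_of_le (by positivity) hWc
    exact_mod_cast h1
  have hζ : 0 < τ / (16 * C * M) := by positivity
  obtain ⟨S, hS, T, hT, hST, w, hw, hwS, hwT⟩ := cell G1 X Y M (τ / (16 * C * M)) hζ ⌊C / η⌋₊
    hG1n U V (fun a ha => hXM a ((hUm a).1 ha)) (fun b hb => hYM b ((hVm b).1 hb)) W
    (Finset.filter_subset _ _) hW0
  refine ⟨S, T, ?_, ?_⟩
  · unfold dens
    rw [div_mul_eq_mul_div, div_le_iff₀ (by positivity), mul_comm ((S.card : ℝ) * T.card)]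
    exact hWc.trans hST
  · have hwm := Finset.mem_filter.1 hw
    have hwU := Finset.mem_product.1 hwm.1
    have hPr : ∀ a ∈ S, ∀ b ∈ T, P a b ≤ 16 / τ ^ 2 * r a b ^ 2 := by
      intro a ha b hb
      rcases hP a b with h0 | h0
      · rw [h0]
        positivity
      · have haI : a ∉ I := (hUm a).1 (hS ha)
        have hbJ : b ∉ J := (hVm b).1 (hT hb)
        have h1 : g a b + t a b + r a b = 0 := by rw [← hsplit]; exact hPE a b h0
        have h2 : |g a b - g w.1 w.2| ≤ τ / 8 := by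
          have h3 : g a b - g w.1 w.2 = ∑ i ∈ G1, σ i * ((X i a - X i w.1) * Y i b +
              X i w.1 * (Y i b - Y i w.2)) := by
            simp only [hg]
            rw [← Finset.sum_sub_distrib]
            refine Finset.sum_congr rfl fun i _ => ?_
            ring
          rw [h3]
          calc |∑ i ∈ G1, σ i * ((X i a - X i w.1) * Y i b + X i w.1 * (Y i b - Y i w.2))|
              ≤ ∑ i ∈ G1, |σ i * ((X i a - X i w.1) * Y i b + X i w.1 * (Y i b - Y i w.2))| :=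
                Finset.abs_sum_le_sum_abs _ _
            _ ≤ ∑ i ∈ G1, σ i * (τ / (16 * C * M) * M + M * (τ / (16 * C * M))) := by
                refine Finset.sum_le_sum fun i hi => ?_
                rw [abs_mul, abs_of_nonneg (hσ i)]
                refine mul_le_mul_of_nonneg_left ((abs_add_le _ _).trans ?_) (hσ i)
                rw [abs_mul, abs_mul]
                refine add_le_add ?_ ?_
                · exact mul_le_mul (hwS a ha i hi) (hYM b hbJ i hi) (abs_nonneg _) hζ.le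
                · exact mul_le_mul (hXM _ ((hUm _).1 hwU.1) i hi) (hwT b hb i hi) (abs_nonneg _)
                    hM.le
            _ = (∑ i ∈ G1, σ i) * (τ / (8 * C)) := by
                rw [Finset.sum_mul]
                refine Finset.sum_congr rfl fun i _ => ?_
                field_simp
                ring
            _ ≤ C * (τ / (8 * C)) := mul_le_mul_of_nonneg_right hG1s (by positivity)
            _ = τ / 8 := by field_simp
        have h4 := htb a haI b hbJ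
        have h5 := hwm.2
        have h6 : τ / 4 ≤ |r a b| := by
          have h7 : r a b = -(g a b + t a b) := by linarith
          rw [h7, abs_neg]
          have h8 : |g w.1 w.2| ≤ |g a b| + τ / 8 := by
            have := abs_sub_abs_le_abs_sub (g w.1 w.2) (g a b)
            rw [abs_sub_comm] at this
            linarith
          have h9 : |g a b| ≤ |g a b + t a b| + |t a b| := by
            have := abs_sub (g a b + t a b) (t a b)
            simpa using this
          linarith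
        have h7 : (τ / 4) ^ 2 ≤ r a b ^ 2 := by
          rw [← sq_abs (r a b)]
          exact pow_le_pow_left₀ (by positivity) h6 2
        rw [h0, div_mul_eq_mul_div, le_div_iff₀ (by positivity)]
        linarith
    calc ∑ a ∈ S, ∑ b ∈ T, P a b ≤ ∑ a ∈ S, ∑ b ∈ T, 16 / τ ^ 2 * r a b ^ 2 :=
          Finset.sum_le_sum fun a ha => Finset.sum_le_sum fun b hb => hPr a ha b hb
      _ ≤ ∑ a ∈ S, ∑ b, 16 / τ ^ 2 * r a b ^ 2 :=
          Finset.sum_le_sum fun a _ => Finset.sum_le_sum_of_subset_of_nonneg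
            (Finset.subset_univ _) fun b _ _ => by positivity
      _ ≤ ∑ a, ∑ b, 16 / τ ^ 2 * r a b ^ 2 :=
          Finset.sum_le_sum_of_subset_of_nonneg (Finset.subset_univ _) fun a _ _ =>
            Finset.sum_nonneg fun b _ => by positivity
      _ = 16 / τ ^ 2 * ∑ a, ∑ b, r a b ^ 2 := by simp_rw [Finset.mul_sum]
      _ ≤ 16 / τ ^ 2 * (η' * C * (m * n)) := mul_le_mul_of_nonneg_left hr (by positivity)
      _ = 16 * C * η' / τ ^ 2 * (m * n) := by ring

end Pool.Agent.R979.NN
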