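import Pool.Agent.R979.NN.Assembly

/-! # The estimate of the error from a good pair of sets -/

set_option autoImplicit false

namespace Pool.Agent.R979.NN

open Finset Matrix Filter Topology

lemma fsq_le_of_abs_le {m n : ℕ} {A : Matrix (Fin m) (Fin n) ℝ} {L : ℝ}
    (hA : ∀ a b, |A a b| ≤ L) : fsq A ≤ L ^ 2 * (m * n) := by
  calc fsq A ≤ ∑ _a : Fin m, ∑ _b : Fin n, L ^ 2 := by
        refine Finset.sum_le_sum fun a _ => Finset.sum_le_sum fun b _ => ?_
        rw [← sq_abs]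
        exact pow_le_pow_left₀ (abs_nonneg _) (hA a b) 2
    _ = L ^ 2 * (m * n) := by
        simp only [Finset.sum_const, Finset.card_univ, Fintype.card_fin, nsmul_eq_mul]
        ring

lemma fsq_out {m n : ℕ} {A : Matrix (Fin m) (Fin n) ℝ} {L τ : ℝ}
    (hA : ∀ a b, |A a b| ≤ L) (I : Finset (Fin m)) (J : Finset (Fin n))
    (hI : (I.card : ℝ) ≤ τ * m) (hJ : (J.card : ℝ) ≤ τ * n) :
    fsq (A - msk (· ∉ I) (· ∉ J) A) ≤ 2 * τ * L ^ 2 * (m * n) := by
  have hm' : (0 : ℝ) ≤ m := Nat.cast_nonneg _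
  have hn' : (0 : ℝ) ≤ n := Nat.cast_nonneg _
  calc fsq (A - msk (· ∉ I) (· ∉ J) A)
      ≤ ∑ a, ∑ b, L ^ 2 * ((if a ∈ I then 1 else 0) + (if b ∈ J then 1 else 0)) := by
        refine Finset.sum_le_sum fun a _ => Finset.sum_le_sum fun b _ => ?_
        have h1 : A a b ^ 2 ≤ L ^ 2 := by
          rw [← sq_abs]
          exact pow_le_pow_left₀ (abs_nonneg _) (hA a b) 2
        simp only [Matrix.sub_apply, msk]
        by_cases ha : a ∈ I <;> by_cases hb : b ∈ J <;> simp [ha, hb] <;> nlinarith [sq_nonneg L]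
    _ = L ^ 2 * (I.card * n + m * J.card) := by
        simp_rw [← Finset.mul_sum, Finset.sum_add_distrib]
        congr 1
        simp
    _ ≤ L ^ 2 * (τ * m * n + m * (τ * n)) := by
        refine mul_le_mul_of_nonneg_left (add_le_add ?_ ?_) (sq_nonneg _)
        · exact mul_le_mul_of_nonneg_right hI hn'
        · exact mul_le_mul_of_nonneg_left hJ hm'
    _ = 2 * τ * L ^ 2 * (m * n) := by ring

lemma fsq_split {m n : ℕ} (E : Matrix (Fin m) (Fin n) ℝ) (p : Fin m → Prop) (q : Fin n → Prop)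
    [DecidablePred p] [DecidablePred q] :
    fsq E = fsq (msk p q E) + fsq (E - msk p q E) := by
  unfold fsq
  rw [← Finset.sum_add_distrib]
  refine Finset.sum_congr rfl fun a _ => ?_
  rw [← Finset.sum_add_distrib]
  refine Finset.sum_congr rfl fun b _ => ?_
  simp only [Matrix.sub_apply, msk]
  split_ifs <;> ring

lemma fsq_sub_le {m n : ℕ} (A B : Matrix (Fin m) (Fin n) ℝ) :
    fsq (A - B) ≤ 2 * fsq A + 2 * fsq B := by
  unfold fsq
  rw [Finset.mul_sum, Finset.mul_sum, ← Finset.sum_add_distrib]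
  refine Finset.sum_le_sum fun a _ => ?_
  rw [Finset.mul_sum, Finset.mul_sum, ← Finset.sum_add_distrib]
  refine Finset.sum_le_sum fun b _ => ?_
  simp only [Matrix.sub_apply]
  nlinarith [sq_nonneg (A a b + B a b)]

/-- the error bound -/
noncomputable def errB (K L τ : ℝ) : ℝ :=
  τ ^ 2 + 4 * K * L * (√(2 * τ) * L + τ) + 4 * τ * L ^ 2

theorem est {m n : ℕ} (hm : 0 < m) (hn : 0 < n) {K L τ : ℝ} (hL0 : 0 ≤ L)
    (hτ : 0 < τ) (A B : Matrix (Fin m) (Fin n) ℝ) (hrank : (A.rank : ℝ) ≤ K)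
    (hL : ∀ a b, |A a b| ≤ L) (hnuc : nuc B ≤ nuc A) (hgood : Good τ (B - A)) :
    fsq (B - A) ≤ errB K L τ * (m * n) := by
  obtain ⟨I, J, hI, hJ, hIJ⟩ := hgood
  have hm' : (0 : ℝ) < m := by exact_mod_cast hm
  have hn' : (0 : ℝ) < n := by exact_mod_cast hn
  have hK0 : 0 ≤ K := le_trans (Nat.cast_nonneg _) hrank
  set N := √((m : ℝ) * n) with hN
  have hN0 : 0 < N := Real.sqrt_pos.2 (mul_pos hm' hn')
  have hN2 : N ^ 2 = m * n := Real.sq_sqrt (mul_pos hm' hn').le
  obtain ⟨G, hG, hGf, hGA⟩ := exists_dual A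
  set RA := msk (· ∉ I) (· ∉ J) A with hRA
  set RB := msk (· ∉ I) (· ∉ J) B with hRB
  set RE := msk (· ∉ I) (· ∉ J) (B - A) with hRE
  have hlin : RE = RB - RA := by
    ext a b
    simp only [hRE, hRB, hRA, msk, Matrix.sub_apply]
    split_ifs <;> simp
  -- the nuclear norm of the restriction of B
  have hu : nuc A - √K * (√(2 * τ) * L + τ) * N ≤ nuc RB := by
    have h1 : ip G RB ≤ nuc RB := ip_le_nuc hG
    have h2 : ip G RB = ip G A - ip G (A - RA) + ip G RE := by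
      unfold ip
      rw [← Finset.sum_sub_distrib, ← Finset.sum_add_distrib]
      refine Finset.sum_congr rfl fun a _ => ?_
      rw [← Finset.sum_sub_distrib, ← Finset.sum_add_distrib]
      refine Finset.sum_congr rfl fun b _ => ?_
      rw [hlin]
      simp only [Matrix.sub_apply]
      ring
    have hGK : √(fsq G) ≤ √K := Real.sqrt_le_sqrt (hGf.trans hrank)
    have h3 : |ip G (A - RA)| ≤ √K * (√(2 * τ) * L * N) := by
      refine (ip_le _ _).trans (mul_le_mul hGK ?_ (Real.sqrt_nonneg _) (Real.sqrt_nonneg _))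
      rw [Real.sqrt_le_left (by positivity)]
      refine (fsq_out hL I J hI hJ).trans (le_of_eq ?_)
      rw [mul_pow, mul_pow, hN2, Real.sq_sqrt (by positivity)]
    have h4 : |ip G RE| ≤ √K * (τ * N) := by
      refine (ip_le _ _).trans (mul_le_mul hGK ?_ (Real.sqrt_nonneg _) (Real.sqrt_nonneg _))
      rw [Real.sqrt_le_left (by positivity), mul_pow, hN2]
      exact hIJ
    have h5 := abs_le.1 h3
    have h6 := abs_le.1 h4
    rw [h2, hGA] at h1
    nlinarith [h5.2, h6.1]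
  have hsp := split B (· ∉ I) (· ∉ J)
  rw [← hRB] at hsp
  have hA1 : nuc A ≤ √K * L * N := by
    refine (nuc_le_of_rank hrank).trans ?_
    rw [mul_assoc]
    refine mul_le_mul_of_nonneg_left ?_ (Real.sqrt_nonneg _)
    rw [Real.sqrt_le_left (by positivity), mul_pow, hN2]
    exact fsq_le_of_abs_le hL
  have hA0 := nuc_nonneg A
  have hB0 := nuc_nonneg B
  have hR0 := nuc_nonneg RB
  set D' := √K * (√(2 * τ) * L + τ) * N with hD'
  have hD0 : 0 ≤ D' := by positivity
  have hout : fsq (B - RB) ≤ 2 * nuc A * D' := by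
    have h1 : nuc B ^ 2 ≤ nuc A ^ 2 := pow_le_pow_left₀ hB0 hnuc 2
    rcases le_total D' (nuc A) with h2 | h2
    · have h3 : (nuc A - D') ^ 2 ≤ nuc RB ^ 2 := pow_le_pow_left₀ (sub_nonneg.2 h2) hu 2
      nlinarith [sq_nonneg D']
    · nlinarith [sq_nonneg (nuc RB), mul_le_mul_of_nonneg_left h2 hA0]
  have hAD : nuc A * D' ≤ K * L * (√(2 * τ) * L + τ) * (m * n) := by
    calc nuc A * D' ≤ (√K * L * N) * D' := mul_le_mul_of_nonneg_right hA1 hD0
      _ = (√K * √K) * L * (√(2 * τ) * L + τ) * N ^ 2 := by rw [hD']; ring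
      _ = K * L * (√(2 * τ) * L + τ) * (m * n) := by rw [Real.mul_self_sqrt hK0, hN2]
  have hE1 : fsq ((B - A) - RE) ≤ 2 * fsq (B - RB) + 2 * fsq (A - RA) := by
    have h1 : (B - A) - RE = (B - RB) - (A - RA) := by
      rw [hlin]
      abel
    rw [h1]
    exact fsq_sub_le _ _
  have hAo : fsq (A - RA) ≤ 2 * τ * L ^ 2 * (m * n) := fsq_out hL I J hI hJ
  rw [fsq_split (B - A) (· ∉ I) (· ∉ J), ← hRE, errB]
  nlinarith

lemma exists_errB (K L : ℝ) {ε : ℝ} (hε : 0 < ε) : ∃ τ > 0, errB K L τ < ε := by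
  have h1 : Continuous (errB K L) := by
    unfold errB
    fun_prop
  have h2 : errB K L 0 = 0 := by
    unfold errB
    simp
  have h3 : Tendsto (errB K L) (𝓝[>] 0) (𝓝 0) := by
    have h := (h1.tendsto 0).mono_left (nhdsWithin_le_nhds (s := Set.Ioi 0))
    rwa [h2] at h
  have h4 := (h3.eventually (gt_mem_nhds hε)).and self_mem_nhdsWithin
  obtain ⟨τ, h5, h6⟩ := h4.exists
  exact ⟨τ, h6, h5⟩

/-- the error of nuclear norm minimisation tends to zero -/
theorem main {m n : ℕ → ℕ} {P : ∀ k, Matrix (Fin (m k)) (Fin (n k)) ℝ}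
    (hm : Tendsto m atTop atTop) (hn : Tendsto n atTop atTop)
    (hP : ∀ k a b, P k a b = 0 ∨ P k a b = 1) (hS : Spread m n P)
    (A B : ∀ k, Matrix (Fin (m k)) (Fin (n k)) ℝ) {K L : ℝ} (hrank : ∀ k, ((A k).rank : ℝ) ≤ K)
    (hL : ∀ k a b, |A k a b| ≤ L) (hEP : ∀ k a b, P k a b = 1 → B k a b = A k a b)
    (hnuc : ∀ k, nuc (B k) ≤ nuc (A k)) {ε : ℝ} (hε : 0 < ε) :
    ∀ᶠ k in atTop, fsq (B k - A k) < ε * (m k * n k) := by
  obtain ⟨τ, hτ, hτε⟩ := exists_errB K (max L 0) hε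
  have hL' : ∀ k a b, |A k a b| ≤ max L 0 := fun k a b => (hL k a b).trans (le_max_left _ _)
  have hC : 0 < 2 * (√K * max L 0) + 1 := by positivity
  filter_upwards [allGood hm hn hP hS hτ hC, hm.eventually_gt_atTop 0,
    hn.eventually_gt_atTop 0] with k hk hmk hnk
  have hmk' : (0 : ℝ) < m k := by exact_mod_cast hmk
  have hnk' : (0 : ℝ) < n k := by exact_mod_cast hnk
  have hgood : Good τ (B k - A k) := by
    refine hk _ ?_ ?_
    · refine (nuc_sub_le _ _).trans ?_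
      have h1 : nuc (A k) ≤ √K * (max L 0 * √((m k : ℝ) * n k)) := by
        refine (nuc_le_of_rank (hrank k)).trans ?_
        refine mul_le_mul_of_nonneg_left ?_ (Real.sqrt_nonneg _)
        rw [Real.sqrt_le_left (by positivity), mul_pow, Real.sq_sqrt (by positivity)]
        exact fsq_le_of_abs_le (hL' k)
      have h2 := hnuc k
      have h3 : 0 ≤ √((m k : ℝ) * n k) := Real.sqrt_nonneg _
      nlinarith
    · intro a b h
      rw [Matrix.sub_apply, hEP k a b h, sub_self]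
  refine lt_of_le_of_lt (est hmk hnk (le_max_right _ _) hτ (A k) (B k) (hrank k) (hL' k) (hnuc k)
    hgood) ?_
  exact mul_lt_mul_of_pos_right hτε (mul_pos hmk' hnk')

end Pool.Agent.R979.NN
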