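import Mathlib

/-! # The nuclear norm of a real matrix: singular value decomposition and duality -/

set_option autoImplicit false

namespace Pool.Agent.R979.NN

open Finset Matrix

variable {m n : Type*} [Fintype m] [Fintype n] [DecidableEq n]

/-- the singular values: the square roots of the eigenvalues of `Aᴴ A` -/
noncomputable def sv (A : Matrix m n ℝ) (i : n) : ℝ :=
  √((Matrix.isHermitian_conjTranspose_mul_self A).eigenvalues i)

/-- the nuclear norm: the sum of the singular values -/
noncomputable def nuc (A : Matrix m n ℝ) : ℝ := ∑ i, sv A i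

lemma sv_nonneg (A : Matrix m n ℝ) (i : n) : 0 ≤ sv A i := Real.sqrt_nonneg _

/-- the sum of the squares of the entries -/
def fsq {m n : Type*} [Fintype m] [Fintype n] (A : Matrix m n ℝ) : ℝ := ∑ a, ∑ b, A a b ^ 2

/-- the inner product of two matrices -/
def ip {m n : Type*} [Fintype m] [Fintype n] (G A : Matrix m n ℝ) : ℝ := ∑ a, ∑ b, G a b * A a b

/-- contractions -/
def Contr {m n : Type*} [Fintype m] [Fintype n] (G : Matrix m n ℝ) : Prop :=
  ∀ v : n → ℝ, ∑ a, (∑ b, G a b * v b) ^ 2 ≤ ∑ b, v b ^ 2

theorem svd (A : Matrix m n ℝ) : ∃ (x : n → m → ℝ) (y : n → n → ℝ),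
    (∀ i j, ∑ b, y i b * y j b = if i = j then 1 else 0) ∧
    (∀ i j, ∑ a, x i a * x j a = if i = j ∧ sv A i ≠ 0 then 1 else 0) ∧
    (∀ a b, A a b = ∑ i, sv A i * x i a * y i b) ∧
    (univ.filter fun i => sv A i ≠ 0).card ≤ A.rank ∧
    ∀ v : n → ℝ, ∑ i, (∑ b, y i b * v b) ^ 2 = ∑ b, v b ^ 2 := by
  classical
  set hA := Matrix.isHermitian_conjTranspose_mul_self A with hhA
  set lam := hA.eigenvalues with hlam
  let y : n → n → ℝ := fun i b => hA.eigenvectorBasis i b
  have hlam0 : ∀ i, 0 ≤ lam i := fun i =>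
    (Matrix.posSemidef_conjTranspose_mul_self A).eigenvalues_nonneg i
  have hy : ∀ i j, ∑ b, y i b * y j b = if i = j then 1 else 0 := by
    intro i j
    have h := (orthonormal_iff_ite.1 hA.eigenvectorBasis.orthonormal) i j
    rw [← h, PiLp.inner_apply]
    refine Finset.sum_congr rfl fun b _ => ?_
    simp [y, mul_comm]
  have hyy : ∀ a b, ∑ i, y i a * y i b = if a = b then 1 else 0 := by
    have h1 : (Matrix.of y) * (Matrix.of y)ᵀ = 1 := by
      ext i j
      rw [Matrix.mul_apply, Matrix.one_apply]
      exact hy i j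
    have h2 := (mul_eq_one_comm.1 h1)
    intro a b
    have h3 := congrFun (congrFun h2 a) b
    rw [Matrix.mul_apply, Matrix.one_apply] at h3
    exact h3
  have hpars : ∀ v : n → ℝ, ∑ i, (∑ b, y i b * v b) ^ 2 = ∑ b, v b ^ 2 := by
    intro v
    calc ∑ i, (∑ b, y i b * v b) ^ 2
        = ∑ i, ∑ a, ∑ b, (y i a * y i b) * (v a * v b) := by
          refine Finset.sum_congr rfl fun i _ => ?_
          rw [sq, Finset.sum_mul_sum]
          refine Finset.sum_congr rfl fun a _ => Finset.sum_congr rfl fun b _ => ?_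
          ring
      _ = ∑ a, ∑ b, (∑ i, y i a * y i b) * (v a * v b) := by
          rw [Finset.sum_comm]
          refine Finset.sum_congr rfl fun a _ => ?_
          rw [Finset.sum_comm]
          refine Finset.sum_congr rfl fun b _ => ?_
          rw [Finset.sum_mul]
      _ = ∑ b, v b ^ 2 := by
          refine Finset.sum_congr rfl fun a _ => ?_
          simp_rw [hyy]
          simp [sq]
  let w : n → m → ℝ := fun i => A *ᵥ y i
  have hev : ∀ j, (Aᴴ * A) *ᵥ (y j) = lam j • (y j) := fun j => hA.mulVec_eigenvectorBasis j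
  have hw : ∀ i j, ∑ a, w i a * w j a = if i = j then lam i else 0 := by
    intro i j
    have h1 : ∑ a, w i a * w j a = (A *ᵥ y i) ⬝ᵥ (A *ᵥ y j) := rfl
    rw [h1, Matrix.dotProduct_mulVec, ← Matrix.mulVec_transpose, Matrix.mulVec_mulVec]
    have h2 : (Aᵀ * A) *ᵥ (y i) = lam i • (y i) := by
      have := hev i
      rwa [Matrix.conjTranspose_eq_transpose_of_trivial] at this
    rw [h2, smul_dotProduct]
    have h3 : (y i) ⬝ᵥ (y j) = if i = j then 1 else 0 := hy i j
    rw [h3]
    split_ifs <;> simp
  let s : n → ℝ := fun i => sv A i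
  have hs0 : ∀ i, 0 ≤ s i := fun i => Real.sqrt_nonneg _
  have hs2 : ∀ i, s i * s i = lam i := fun i => Real.mul_self_sqrt (hlam0 i)
  have hw0 : ∀ i, s i = 0 → ∀ a, w i a = 0 := by
    intro i hi a
    have h1 : ∑ a, w i a * w i a = 0 := by
      rw [hw i i, if_pos rfl, ← hs2 i, hi, mul_zero]
    have h2 := (Finset.sum_eq_zero_iff_of_nonneg (fun a _ => mul_self_nonneg (w i a))).1 h1 a
      (Finset.mem_univ a)
    exact mul_self_eq_zero.1 h2
  let x : n → m → ℝ := fun i a => w i a / s i
  have hsx : ∀ i a, s i * x i a = w i a := by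
    intro i a
    by_cases h : s i = 0
    · rw [h, zero_mul, hw0 i h]
    · exact mul_div_cancel₀ _ h
  refine ⟨x, y, hy, ?_, ?_, ?_, hpars⟩
  · intro i j
    change _ = if i = j ∧ s i ≠ 0 then (1 : ℝ) else 0
    have h1 : ∑ a, x i a * x j a = (∑ a, w i a * w j a) / (s i * s j) := by
      rw [Finset.sum_div]
      refine Finset.sum_congr rfl fun a _ => ?_
      simp only [x]
      rw [div_mul_div_comm]
    rw [h1, hw]
    by_cases hij : i = j
    · subst hij
      by_cases h : s i = 0
      · simp [h]
      · simp only [h, if_true, true_and, ne_eq, not_false_eq_true]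
        rw [← hs2 i]
        exact div_self (mul_ne_zero h h)
    · simp [hij]
  · intro a b
    calc A a b = ∑ c, A a c * (if c = b then 1 else 0) := by simp
      _ = ∑ c, A a c * ∑ i, y i c * y i b := by
          refine Finset.sum_congr rfl fun c _ => ?_
          rw [hyy]
      _ = ∑ i, s i * x i a * y i b := by
          simp_rw [Finset.mul_sum]
          rw [Finset.sum_comm]
          refine Finset.sum_congr rfl fun i _ => ?_
          rw [hsx]
          simp only [w, Matrix.mulVec, dotProduct]
          rw [Finset.sum_mul]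
          refine Finset.sum_congr rfl fun c _ => ?_
          ring
  · have h1 : (Aᴴ * A).rank = A.rank := Matrix.rank_conjTranspose_mul_self A
    rw [← h1, hA.rank_eq_card_non_zero_eigs, Fintype.card_subtype]
    refine Finset.card_le_card fun i hi => ?_
    rw [Finset.mem_filter] at hi ⊢
    refine ⟨hi.1, fun h0 => hi.2 ?_⟩
    change √(lam i) = 0
    rw [hlam, h0, Real.sqrt_zero]

lemma contr_mask {m n : Type*} [Fintype m] [Fintype n] {G : Matrix m n ℝ} (hG : Contr G)
    (p : m → Prop) (q : n → Prop) [DecidablePred p] [DecidablePred q] :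
    Contr (fun a b => if p a ∧ q b then G a b else 0) := by
  intro v
  calc ∑ a, (∑ b, (if p a ∧ q b then G a b else 0) * v b) ^ 2
      ≤ ∑ a, (∑ b, G a b * (if q b then v b else 0)) ^ 2 := by
        refine Finset.sum_le_sum fun a _ => ?_
        by_cases h : p a
        · apply le_of_eq
          congr 1
          refine Finset.sum_congr rfl fun b _ => ?_
          by_cases h2 : q b <;> simp [h, h2]
        · simp only [h, false_and, if_false, zero_mul, Finset.sum_const_zero]
          rw [zero_pow two_ne_zero]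
          exact sq_nonneg _
    _ ≤ ∑ b, (if q b then v b else 0) ^ 2 := hG _
    _ ≤ ∑ b, v b ^ 2 := by
        refine Finset.sum_le_sum fun b _ => ?_
        split_ifs
        · exact le_rfl
        · rw [zero_pow two_ne_zero]
          exact sq_nonneg _

/-- Cauchy-Schwarz -/
lemma ip_le {m n : Type*} [Fintype m] [Fintype n] (G A : Matrix m n ℝ) :
    |ip G A| ≤ √(fsq G) * √(fsq A) := by
  unfold ip fsq
  rw [← Finset.sum_product', ← Finset.sum_product', ← Finset.sum_product',
    ← Real.sqrt_mul (Finset.sum_nonneg fun i _ => sq_nonneg _)]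
  apply Real.abs_le_sqrt
  exact Finset.sum_mul_sq_le_sq_mul_sq _ _ _

theorem ip_le_nuc {G A : Matrix m n ℝ} (hG : Contr G) : ip G A ≤ nuc A := by
  obtain ⟨x, y, hy, hx, hA, -, -⟩ := svd A
  have h1 : ip G A = ∑ i, sv A i * ∑ a, x i a * ∑ b, G a b * y i b := by
    unfold ip
    calc ∑ a, ∑ b, G a b * A a b = ∑ a, ∑ b, ∑ i, sv A i * (x i a * (G a b * y i b)) := by
          refine Finset.sum_congr rfl fun a _ => Finset.sum_congr rfl fun b _ => ?_
          rw [hA a b, Finset.mul_sum]
          refine Finset.sum_congr rfl fun i _ => ?_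
          ring
      _ = ∑ a, ∑ i, ∑ b, sv A i * (x i a * (G a b * y i b)) :=
          Finset.sum_congr rfl fun a _ => Finset.sum_comm
      _ = ∑ i, ∑ a, ∑ b, sv A i * (x i a * (G a b * y i b)) := Finset.sum_comm
      _ = _ := by
          refine Finset.sum_congr rfl fun i _ => ?_
          rw [Finset.mul_sum]
          refine Finset.sum_congr rfl fun a _ => ?_
          rw [Finset.mul_sum, Finset.mul_sum]
  rw [h1, nuc]
  refine Finset.sum_le_sum fun i _ => ?_
  have h2 : ∑ a, x i a * ∑ b, G a b * y i b ≤ 1 := by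
    have h3 : ∑ a, x i a ^ 2 ≤ 1 := by
      have := hx i i
      simp_rw [sq]
      rw [this]
      split_ifs <;> norm_num
    have h4 : ∑ a, (∑ b, G a b * y i b) ^ 2 ≤ 1 := by
      refine (hG (y i)).trans ?_
      have := hy i i
      simp_rw [sq]
      rw [this]
      simp
    have h5 := Finset.sum_mul_sq_le_sq_mul_sq univ (fun a => x i a) (fun a => ∑ b, G a b * y i b)
    have h6 : (∑ a, x i a * ∑ b, G a b * y i b) ^ 2 ≤ 1 := by
      refine h5.trans ?_
      exact mul_le_one₀ h3 (Finset.sum_nonneg fun a _ => sq_nonneg _) h4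
    nlinarith
  nlinarith [sv_nonneg A i]

lemma sum_sq_lin {m ι : Type*} [Fintype m] [Fintype ι] [DecidableEq ι] (x : ι → m → ℝ)
    (c : ι → ℝ) (e : ι → Prop) [DecidablePred e]
    (hx : ∀ i j, ∑ a, x i a * x j a = if i = j ∧ e i then 1 else 0) :
    ∑ a, (∑ i, c i * x i a) ^ 2 = ∑ i, if e i then c i ^ 2 else 0 := by
  calc ∑ a, (∑ i, c i * x i a) ^ 2 = ∑ a, ∑ i, ∑ j, (c i * c j) * (x i a * x j a) := by
        refine Finset.sum_congr rfl fun a _ => ?_
        rw [sq, Finset.sum_mul_sum]
        refine Finset.sum_congr rfl fun i _ => Finset.sum_congr rfl fun j _ => ?_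
        ring
    _ = ∑ i, ∑ j, (c i * c j) * ∑ a, (x i a * x j a) := by
        rw [Finset.sum_comm]
        refine Finset.sum_congr rfl fun i _ => ?_
        rw [Finset.sum_comm]
        refine Finset.sum_congr rfl fun j _ => ?_
        rw [Finset.mul_sum]
    _ = ∑ i, if e i then c i ^ 2 else 0 := by
        refine Finset.sum_congr rfl fun i _ => ?_
        simp_rw [hx]
        rw [Finset.sum_eq_single i]
        · by_cases h : e i <;> simp [h, sq]
        · intro j _ hj
          simp [hj.symm]
        · simp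

theorem exists_dual (A : Matrix m n ℝ) :
    ∃ G : Matrix m n ℝ, Contr G ∧ fsq G ≤ A.rank ∧ ip G A = nuc A := by
  classical
  obtain ⟨x, y, hy, hx, hA, hcard, hpars⟩ := svd A
  refine ⟨fun a b => ∑ i, x i a * y i b, ?_, ?_, ?_⟩
  · intro v
    have h1 : ∀ a, ∑ b, (∑ i, x i a * y i b) * v b = ∑ i, (∑ b, y i b * v b) * x i a := by
      intro a
      simp_rw [Finset.sum_mul]
      rw [Finset.sum_comm]
      refine Finset.sum_congr rfl fun i _ => Finset.sum_congr rfl fun b _ => ?_
      ring
    simp_rw [h1]
    rw [sum_sq_lin x (fun i => ∑ b, y i b * v b) (fun i => sv A i ≠ 0) hx, ← hpars v]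
    refine Finset.sum_le_sum fun i _ => ?_
    split_ifs
    · exact le_rfl
    · positivity
  · have h2 : fsq (fun a b => ∑ i, x i a * y i b : Matrix m n ℝ) =
        ∑ i, if sv A i ≠ 0 then (1 : ℝ) else 0 := by
      unfold fsq
      rw [Finset.sum_comm]
      calc ∑ b, ∑ a, (∑ i, x i a * y i b) ^ 2
          = ∑ b, ∑ i, if sv A i ≠ 0 then (y i b) ^ 2 else 0 := by
            refine Finset.sum_congr rfl fun b _ => ?_
            rw [← sum_sq_lin x (fun i => y i b) (fun i => sv A i ≠ 0) hx]
            refine Finset.sum_congr rfl fun a _ => ?_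
            congr 1
            refine Finset.sum_congr rfl fun i _ => ?_
            ring
        _ = ∑ i, if sv A i ≠ 0 then (1 : ℝ) else 0 := by
            rw [Finset.sum_comm]
            refine Finset.sum_congr rfl fun i _ => ?_
            split_ifs with h
            · have := hy i i
              simp_rw [sq]
              rw [this]
              simp
            · simp
    rw [h2, Finset.sum_ite, Finset.sum_const_zero, add_zero, Finset.sum_const, nsmul_eq_mul,
      mul_one]
    exact_mod_cast hcard
  · unfold ip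
    calc ∑ a, ∑ b, (∑ i, x i a * y i b) * A a b
        = ∑ a, ∑ b, ∑ i, x i a * (y i b * A a b) := by
          refine Finset.sum_congr rfl fun a _ => Finset.sum_congr rfl fun b _ => ?_
          rw [Finset.sum_mul]
          refine Finset.sum_congr rfl fun i _ => ?_
          ring
      _ = ∑ a, ∑ i, ∑ b, x i a * (y i b * A a b) :=
          Finset.sum_congr rfl fun a _ => Finset.sum_comm
      _ = ∑ i, ∑ a, x i a * ∑ b, y i b * A a b := by
          rw [Finset.sum_comm]
          refine Finset.sum_congr rfl fun i _ => Finset.sum_congr rfl fun a _ => ?_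
          rw [Finset.mul_sum]
      _ = ∑ i, ∑ a, x i a * (sv A i * x i a) := by
          refine Finset.sum_congr rfl fun i _ => Finset.sum_congr rfl fun a _ => ?_
          congr 1
          calc ∑ b, y i b * A a b = ∑ b, ∑ j, (sv A j * x j a) * (y i b * y j b) := by
                refine Finset.sum_congr rfl fun b _ => ?_
                rw [hA a b, Finset.mul_sum]
                refine Finset.sum_congr rfl fun j _ => ?_
                ring
            _ = ∑ j, (sv A j * x j a) * ∑ b, (y i b * y j b) := by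
                rw [Finset.sum_comm]
                refine Finset.sum_congr rfl fun j _ => ?_
                rw [Finset.mul_sum]
            _ = sv A i * x i a := by
                simp_rw [hy]
                simp
      _ = nuc A := by
          unfold nuc
          refine Finset.sum_congr rfl fun i _ => ?_
          calc ∑ a, x i a * (sv A i * x i a) = sv A i * ∑ a, x i a * x i a := by
                rw [Finset.mul_sum]
                refine Finset.sum_congr rfl fun a _ => ?_
                ring
            _ = sv A i := by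
                rw [hx]
                by_cases h : sv A i = 0 <;> simp [h]

lemma contr_neg {m n : Type*} [Fintype m] [Fintype n] {G : Matrix m n ℝ} (hG : Contr G) :
    Contr (-G) := by
  intro v
  refine le_trans (le_of_eq ?_) (hG v)
  refine Finset.sum_congr rfl fun a _ => ?_
  simp

lemma nuc_sub_le (A B : Matrix m n ℝ) : nuc (A - B) ≤ nuc A + nuc B := by
  obtain ⟨G, hG, -, h⟩ := exists_dual (A - B)
  rw [← h]
  have h1 : ip G (A - B) = ip G A + ip (-G) B := by
    unfold ip
    rw [← Finset.sum_add_distrib]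
    refine Finset.sum_congr rfl fun a _ => ?_
    rw [← Finset.sum_add_distrib]
    refine Finset.sum_congr rfl fun b _ => ?_
    simp only [Matrix.sub_apply, Matrix.neg_apply]
    ring
  rw [h1]
  exact add_le_add (ip_le_nuc hG) (ip_le_nuc (contr_neg hG))

lemma fsq_nonneg {m n : Type*} [Fintype m] [Fintype n] (A : Matrix m n ℝ) : 0 ≤ fsq A :=
  Finset.sum_nonneg fun _ _ => Finset.sum_nonneg fun _ _ => sq_nonneg _

lemma nuc_nonneg (A : Matrix m n ℝ) : 0 ≤ nuc A := Finset.sum_nonneg fun i _ => sv_nonneg A i

lemma nuc_le_of_rank {A : Matrix m n ℝ} {K : ℝ} (hK : (A.rank : ℝ) ≤ K) :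
    nuc A ≤ √K * √(fsq A) := by
  obtain ⟨G, hG, hf, h⟩ := exists_dual A
  rw [← h]
  refine (le_abs_self _).trans ((ip_le G A).trans ?_)
  exact mul_le_mul_of_nonneg_right (Real.sqrt_le_sqrt (hf.trans hK)) (Real.sqrt_nonneg _)

/-- the part of a matrix on the rectangle `I × J` -/
def msk {m n : Type*} (p : m → Prop) (q : n → Prop) [DecidablePred p] [DecidablePred q]
    (A : Matrix m n ℝ) : Matrix m n ℝ := fun a b => if p a ∧ q b then A a b else 0

/-- the energy outside a rectangle is at most the loss of nuclear norm squared -/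
theorem split (B : Matrix m n ℝ) (p : m → Prop) (q : n → Prop) [DecidablePred p]
    [DecidablePred q] : nuc (msk p q B) ^ 2 + fsq (B - msk p q B) ≤ nuc B ^ 2 := by
  obtain ⟨G, hG, -, hGB⟩ := exists_dual (msk p q B)
  set u := nuc (msk p q B) with hu
  set F := B - msk p q B with hF
  set V := fsq F with hV
  have hu0 : 0 ≤ u := nuc_nonneg _
  have hV0 : 0 ≤ V := fsq_nonneg _
  -- the test matrix, not normalised
  have hFab : ∀ a b, F a b = if p a ∧ q b then 0 else B a b := by
    intro a b
    simp only [hF, Matrix.sub_apply, msk]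
    split_ifs <;> simp
  have hkey : ∀ v : n → ℝ, ∑ a, (∑ b, (u * (if p a ∧ q b then G a b else 0) + F a b) * v b) ^ 2
      ≤ (u ^ 2 + V) * ∑ b, v b ^ 2 := by
    intro v
    set W1 := ∑ b, (if q b then v b else 0) ^ 2 with hW1
    set W2 := ∑ b, (if q b then 0 else v b) ^ 2 with hW2
    have hW : W1 + W2 = ∑ b, v b ^ 2 := by
      rw [hW1, hW2, ← Finset.sum_add_distrib]
      refine Finset.sum_congr rfl fun b _ => ?_
      split_ifs <;> ring
    set g : m → ℝ := fun a => if p a then ∑ b, G a b * (if q b then v b else 0) else 0 with hg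
    set h : m → ℝ := fun a => ∑ b, F a b * v b with hh
    have hgh : ∀ a, ∑ b, (u * (if p a ∧ q b then G a b else 0) + F a b) * v b
        = u * g a + h a := by
      intro a
      simp only [hg, hh]
      by_cases hp : p a
      · rw [if_pos hp, Finset.mul_sum, ← Finset.sum_add_distrib]
        refine Finset.sum_congr rfl fun b _ => ?_
        by_cases hq : q b <;> simp [hp, hq] <;> ring
      · rw [if_neg hp, mul_zero, zero_add]
        refine Finset.sum_congr rfl fun b _ => ?_
        simp [hp]
    have hg1 : ∑ a, g a ^ 2 ≤ W1 := by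
      refine le_trans (Finset.sum_le_sum fun a _ => ?_) (hG _)
      simp only [hg]
      split_ifs
      · exact le_rfl
      · rw [zero_pow two_ne_zero]
        exact sq_nonneg _
    set V1 := ∑ a, (if p a then ∑ b, F a b ^ 2 else 0) with hV1
    set V2 := ∑ a, (if p a then 0 else ∑ b, F a b ^ 2) with hV2
    have hV12 : V1 + V2 = V := by
      rw [hV1, hV2, ← Finset.sum_add_distrib, hV, fsq]
      refine Finset.sum_congr rfl fun a _ => ?_
      split_ifs <;> simp
    have hV10 : 0 ≤ V1 := Finset.sum_nonneg fun a _ => by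
      split_ifs
      · exact Finset.sum_nonneg fun b _ => sq_nonneg _
      · exact le_rfl
    have hW10 : 0 ≤ W1 := Finset.sum_nonneg fun b _ => sq_nonneg _
    have hW20 : 0 ≤ W2 := Finset.sum_nonneg fun b _ => sq_nonneg _
    have hh1 : ∑ a, (if p a then h a else 0) ^ 2 ≤ V1 * W2 := by
      rw [hV1, Finset.sum_mul]
      refine Finset.sum_le_sum fun a _ => ?_
      by_cases hp : p a
      · simp only [if_pos hp]
        have h1 : h a = ∑ b, F a b * (if q b then 0 else v b) := by
          simp only [hh]
          refine Finset.sum_congr rfl fun b _ => ?_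
          rw [hFab]
          by_cases hq : q b <;> simp [hp, hq]
        rw [h1]
        exact Finset.sum_mul_sq_le_sq_mul_sq _ _ _
      · simp [hp]
    have hh2 : ∑ a, (if p a then 0 else h a) ^ 2 ≤ V2 * (W1 + W2) := by
      rw [hV2, Finset.sum_mul]
      refine Finset.sum_le_sum fun a _ => ?_
      by_cases hp : p a
      · simp [hp]
      · simp only [if_neg hp]
        rw [hW]
        exact Finset.sum_mul_sq_le_sq_mul_sq _ _ _
    set X := ∑ a, g a * (if p a then h a else 0) with hX
    have hX1 : X ^ 2 ≤ W1 * (V1 * W2) := by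
      refine (Finset.sum_mul_sq_le_sq_mul_sq _ _ _).trans ?_
      exact mul_le_mul hg1 hh1 (Finset.sum_nonneg fun _ _ => sq_nonneg _) hW10
    have hX2 : 2 * (u * X) ≤ u ^ 2 * W2 + V1 * W1 := by
      have h1 : (2 * (u * X)) ^ 2 ≤ (u ^ 2 * W2 + V1 * W1) ^ 2 := by
        have h2 : u ^ 2 * X ^ 2 ≤ u ^ 2 * (W1 * (V1 * W2)) :=
          mul_le_mul_of_nonneg_left hX1 (sq_nonneg _)
        nlinarith [sq_nonneg (u ^ 2 * W2 - V1 * W1)]
      exact (abs_le_of_sq_le_sq' h1 (by positivity)).2
    have hexp : ∑ a, (u * g a + h a) ^ 2 = u ^ 2 * ∑ a, g a ^ 2 + 2 * (u * X) +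
        (∑ a, (if p a then h a else 0) ^ 2 + ∑ a, (if p a then 0 else h a) ^ 2) := by
      rw [hX, Finset.mul_sum, Finset.mul_sum, Finset.mul_sum, ← Finset.sum_add_distrib,
        ← Finset.sum_add_distrib, ← Finset.sum_add_distrib]
      refine Finset.sum_congr rfl fun a _ => ?_
      by_cases hp : p a
      · simp only [if_pos hp]
        ring
      · simp only [hg, if_neg hp]
        ring
    calc ∑ a, (∑ b, (u * (if p a ∧ q b then G a b else 0) + F a b) * v b) ^ 2
        = ∑ a, (u * g a + h a) ^ 2 := Finset.sum_congr rfl fun a _ => by rw [hgh]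
      _ ≤ u ^ 2 * W1 + (u ^ 2 * W2 + V1 * W1) + (V1 * W2 + V2 * (W1 + W2)) := by
          rw [hexp]
          have h3 := mul_le_mul_of_nonneg_left hg1 (sq_nonneg u)
          linarith
      _ = (u ^ 2 + V) * ∑ b, v b ^ 2 := by
          rw [← hW, ← hV12]
          ring
  have hip : ip (fun a b => u * (if p a ∧ q b then G a b else 0) + F a b) B = u ^ 2 + V := by
    have h1 : u ^ 2 = u * ip G (msk p q B) := by rw [hGB, sq]
    rw [h1, hV]
    unfold ip fsq
    rw [Finset.mul_sum, ← Finset.sum_add_distrib]
    refine Finset.sum_congr rfl fun a _ => ?_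
    rw [Finset.mul_sum, ← Finset.sum_add_distrib]
    refine Finset.sum_congr rfl fun b _ => ?_
    by_cases h : p a ∧ q b
    · have hf : F a b = 0 := by rw [hFab, if_pos h]
      simp only [if_pos h, msk, hf]
      ring
    · have hf : F a b = B a b := by rw [hFab, if_neg h]
      simp only [if_neg h, msk, hf]
      ring
  rcases eq_or_lt_of_le (add_nonneg (sq_nonneg u) hV0) with h0 | h0
  · rw [← h0]; positivity
  set ρ := √(u ^ 2 + V) with hρ
  have hρ0 : 0 < ρ := Real.sqrt_pos.2 h0
  have hρ2 : ρ ^ 2 = u ^ 2 + V := Real.sq_sqrt h0.le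
  have hC : Contr (fun a b => ρ⁻¹ * (u * (if p a ∧ q b then G a b else 0) + F a b) :
      Matrix m n ℝ) := by
    intro v
    have h1 : ∑ a, (∑ b, (ρ⁻¹ * (u * (if p a ∧ q b then G a b else 0) + F a b)) * v b) ^ 2 =
        (ρ ^ 2)⁻¹ * ∑ a, (∑ b, (u * (if p a ∧ q b then G a b else 0) + F a b) * v b) ^ 2 := by
      rw [Finset.mul_sum]
      refine Finset.sum_congr rfl fun a _ => ?_
      simp_rw [mul_assoc]
      rw [← Finset.mul_sum, mul_pow, inv_pow]
    rw [h1, hρ2, inv_mul_le_iff₀ h0]
    exact hkey v
  have h2 := ip_le_nuc (A := B) hC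
  have h3 : ip (fun a b => ρ⁻¹ * (u * (if p a ∧ q b then G a b else 0) + F a b) :
      Matrix m n ℝ) B = ρ⁻¹ * (u ^ 2 + V) := by
    rw [← hip]
    unfold ip
    rw [Finset.mul_sum]
    refine Finset.sum_congr rfl fun a _ => ?_
    rw [Finset.mul_sum]
    refine Finset.sum_congr rfl fun b _ => ?_
    ring
  rw [h3, ← hρ2] at h2
  have h4 : ρ⁻¹ * ρ ^ 2 = ρ := by
    field_simp
  rw [h4] at h2
  rw [← hρ2]
  exact pow_le_pow_left₀ hρ0.le h2 2

end Pool.Agent.R979.NN
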