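import Pool.Agent.R979.NN.Nuc

/-! # The rectangle lemma -/

set_option autoImplicit false

namespace Pool.Agent.R979.NN

open Finset Matrix

lemma fsq_lin {m n ι : Type*} [Fintype m] [Fintype n] [Fintype ι] [DecidableEq ι]
    (x : ι → m → ℝ) (y : ι → n → ℝ) (e : ι → Prop) [DecidablePred e]
    (hx : ∀ i j, ∑ a, x i a * x j a = if i = j ∧ e i then 1 else 0)
    (hy : ∀ i j, ∑ b, y i b * y j b = if i = j then 1 else 0) (d : ι → ℝ) :
    ∑ a, ∑ b, (∑ i, d i * x i a * y i b) ^ 2 ≤ ∑ i, d i ^ 2 := by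
  rw [Finset.sum_comm]
  calc ∑ b, ∑ a, (∑ i, d i * x i a * y i b) ^ 2
      = ∑ b, ∑ i, (if e i then (d i * y i b) ^ 2 else 0) := by
        refine Finset.sum_congr rfl fun b _ => ?_
        rw [← sum_sq_lin x (fun i => d i * y i b) e hx]
        refine Finset.sum_congr rfl fun a _ => ?_
        congr 1
        refine Finset.sum_congr rfl fun i _ => ?_
        ring
    _ = ∑ i, ∑ b, (if e i then (d i * y i b) ^ 2 else 0) := Finset.sum_comm
    _ ≤ ∑ i, d i ^ 2 := by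
        refine Finset.sum_le_sum fun i _ => ?_
        split_ifs
        · apply le_of_eq
          have h1 := hy i i
          rw [if_pos rfl] at h1
          calc ∑ b, (d i * y i b) ^ 2 = d i ^ 2 * ∑ b, y i b * y i b := by
                rw [Finset.mul_sum]
                refine Finset.sum_congr rfl fun b _ => ?_
                ring
            _ = d i ^ 2 := by rw [h1, mul_one]
        · rw [Finset.sum_const_zero]
          exact sq_nonneg _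

/-- few rows are bad -/
lemma card_bad {m : ℕ} {ι : Type*} (G1 G2 : Finset ι) (σ : ι → ℝ) (X : ι → Fin m → ℝ)
    (hσ : ∀ i, 0 ≤ σ i) (hX : ∀ i, ∑ a, X i a ^ 2 ≤ m) (M2 l τ : ℝ) (hM : 0 < M2) (hl : 0 < l)
    (h1 : (G1.card : ℝ) ≤ τ / 2 * M2) (h2 : ∑ i ∈ G2, σ i ≤ τ / 2 * l)
    (I : Finset (Fin m))
    (hI : ∀ a ∈ I, (∃ i ∈ G1, M2 < X i a ^ 2) ∨ l < ∑ i ∈ G2, σ i * X i a ^ 2) :
    (I.card : ℝ) ≤ τ * m := by
  have h3 : ∀ a ∈ I, (1 : ℝ) ≤ M2⁻¹ * ∑ i ∈ G1, X i a ^ 2 + l⁻¹ * ∑ i ∈ G2, σ i * X i a ^ 2 := by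
    intro a ha
    have h4 : 0 ≤ ∑ i ∈ G1, X i a ^ 2 := Finset.sum_nonneg fun i _ => sq_nonneg _
    have h5 : 0 ≤ ∑ i ∈ G2, σ i * X i a ^ 2 :=
      Finset.sum_nonneg fun i _ => mul_nonneg (hσ i) (sq_nonneg _)
    rcases hI a ha with ⟨i, hi, h6⟩ | h6
    · have h7 : X i a ^ 2 ≤ ∑ i ∈ G1, X i a ^ 2 :=
        Finset.single_le_sum (f := fun i => X i a ^ 2) (fun i _ => sq_nonneg _) hi
      have h8 : 1 ≤ M2⁻¹ * ∑ i ∈ G1, X i a ^ 2 := by
        rw [le_inv_mul_iff₀ hM, mul_one]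
        exact h6.le.trans h7
      have h9 : 0 ≤ l⁻¹ * ∑ i ∈ G2, σ i * X i a ^ 2 := mul_nonneg (inv_nonneg.2 hl.le) h5
      linarith
    · have h8 : 1 ≤ l⁻¹ * ∑ i ∈ G2, σ i * X i a ^ 2 := by
        rw [le_inv_mul_iff₀ hl, mul_one]
        exact h6.le
      have h9 : 0 ≤ M2⁻¹ * ∑ i ∈ G1, X i a ^ 2 := mul_nonneg (inv_nonneg.2 hM.le) h4
      linarith
  have h10 : (I.card : ℝ) ≤
      ∑ a, (M2⁻¹ * ∑ i ∈ G1, X i a ^ 2 + l⁻¹ * ∑ i ∈ G2, σ i * X i a ^ 2) := by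
    calc (I.card : ℝ) = ∑ _a ∈ I, (1 : ℝ) := by simp
      _ ≤ ∑ a ∈ I, (M2⁻¹ * ∑ i ∈ G1, X i a ^ 2 + l⁻¹ * ∑ i ∈ G2, σ i * X i a ^ 2) :=
          Finset.sum_le_sum h3
      _ ≤ _ := by
          refine Finset.sum_le_sum_of_subset_of_nonneg (Finset.subset_univ _) fun a _ _ => ?_
          refine add_nonneg (mul_nonneg (inv_nonneg.2 hM.le)
            (Finset.sum_nonneg fun i _ => sq_nonneg _)) (mul_nonneg (inv_nonneg.2 hl.le)
            (Finset.sum_nonneg fun i _ => mul_nonneg (hσ i) (sq_nonneg _)))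
  refine h10.trans ?_
  rw [Finset.sum_add_distrib, ← Finset.mul_sum, ← Finset.mul_sum, Finset.sum_comm,
    Finset.sum_comm (s := univ) (t := G2)]
  have h11 : ∑ i ∈ G1, ∑ a, X i a ^ 2 ≤ G1.card * m := by
    rw [← nsmul_eq_mul]
    exact Finset.sum_le_card_nsmul _ _ _ fun i _ => hX i
  have h12 : ∑ i ∈ G2, ∑ a, σ i * X i a ^ 2 ≤ (∑ i ∈ G2, σ i) * m := by
    rw [Finset.sum_mul]
    refine Finset.sum_le_sum fun i _ => ?_
    rw [← Finset.mul_sum]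
    exact mul_le_mul_of_nonneg_left (hX i) (hσ i)
  have hm : (0 : ℝ) ≤ m := Nat.cast_nonneg _
  have h13 : M2⁻¹ * ∑ i ∈ G1, ∑ a, X i a ^ 2 ≤ τ / 2 * m := by
    rw [inv_mul_le_iff₀ hM]
    calc _ ≤ _ := h11
      _ ≤ (τ / 2 * M2) * m := mul_le_mul_of_nonneg_right h1 hm
      _ = _ := by ring
  have h14 : l⁻¹ * ∑ i ∈ G2, ∑ a, σ i * X i a ^ 2 ≤ τ / 2 * m := by
    rw [inv_mul_le_iff₀ hl]
    calc _ ≤ _ := h12
      _ ≤ (τ / 2 * l) * m := mul_le_mul_of_nonneg_right h2 hm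
      _ = _ := by ring
  linarith

/-- the codes of the rows with respect to the large singular vectors -/
lemma codes {m : ℕ} {ι : Type*} [Fintype ι] [DecidableEq ι] (G1 : Finset ι) (X : ι → Fin m → ℝ)
    (M ζ : ℝ) (hζ : 0 < ζ) (c : ℕ) (hc : G1.card ≤ c) (U : Finset (Fin m))
    (hU : ∀ a ∈ U, ∀ i ∈ G1, |X i a| ≤ M) :
    ∃ (D : Finset (ι → ℤ)) (φ : Fin m → ι → ℤ), D.card ≤ (2 * ⌈M / ζ⌉₊ + 2) ^ c ∧
      (∀ a ∈ U, φ a ∈ D) ∧ ∀ a a', φ a = φ a' → ∀ i ∈ G1, |X i a - X i a'| ≤ ζ := by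
  classical
  set q : ℕ := ⌈M / ζ⌉₊ with hq
  refine ⟨Fintype.piFinset fun i => if i ∈ G1 then Finset.Icc (-((q : ℤ) + 1)) q else {0},
    fun a i => if i ∈ G1 then ⌊X i a / ζ⌋ else 0, ?_, ?_, ?_⟩
  · rw [Fintype.card_piFinset]
    have h1 : ∀ i, (if i ∈ G1 then Finset.Icc (-((q : ℤ) + 1)) q else {0}).card =
        if i ∈ G1 then 2 * q + 2 else 1 := by
      intro i
      split_ifs
      · rw [Int.card_Icc]
        omega
      · simp
    simp_rw [h1]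
    rw [Finset.prod_ite]
    simp only [Finset.prod_const, one_pow, mul_one, Finset.filter_univ_mem]
    exact Nat.pow_le_pow_right (by omega) hc
  · intro a ha
    rw [Fintype.mem_piFinset]
    intro i
    by_cases hi : i ∈ G1
    · simp only [if_pos hi, Finset.mem_Icc]
      have h1 := abs_le.1 (hU a ha i hi)
      have h2 : M / ζ ≤ q := Nat.le_ceil _
      constructor
      · rw [Int.le_floor]
        push_cast
        have h3 : -(M / ζ) ≤ X i a / ζ := by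
          rw [← neg_div]
          exact div_le_div_of_nonneg_right h1.1 hζ.le
        linarith
      · have h3 : X i a / ζ ≤ q := (div_le_div_of_nonneg_right h1.2 hζ.le).trans h2
        have h4 : (⌊X i a / ζ⌋ : ℝ) ≤ ((q : ℤ) : ℝ) := by
          push_cast
          exact (Int.floor_le _).trans h3
        exact_mod_cast h4
    · simp [hi]
  · intro a a' h i hi
    have h1 := congrFun h i
    simp only [if_pos hi] at h1
    have h2 := Int.abs_sub_lt_one_of_floor_eq_floor h1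
    rw [← sub_div, abs_div, abs_of_pos hζ, div_lt_one hζ] at h2
    exact h2.le

/-- the pigeonhole -/
lemma cell {m n : ℕ} {ι : Type*} [Fintype ι] [DecidableEq ι] (G1 : Finset ι)
    (X : ι → Fin m → ℝ) (Y : ι → Fin n → ℝ) (M ζ : ℝ) (hζ : 0 < ζ) (c : ℕ)
    (hc : G1.card ≤ c) (U : Finset (Fin m)) (V : Finset (Fin n))
    (hU : ∀ a ∈ U, ∀ i ∈ G1, |X i a| ≤ M) (hV : ∀ a ∈ V, ∀ i ∈ G1, |Y i a| ≤ M)
    (W : Finset (Fin m × Fin n)) (hW : W ⊆ U ×ˢ V) (hW0 : W.Nonempty) :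
    ∃ S ⊆ U, ∃ T ⊆ V, (W.card : ℝ) ≤ ((2 * ⌈M / ζ⌉₊ + 2 : ℝ) ^ c) ^ 2 * (S.card * T.card) ∧
      ∃ w ∈ W, (∀ a ∈ S, ∀ i ∈ G1, |X i a - X i w.1| ≤ ζ) ∧
        (∀ b ∈ T, ∀ i ∈ G1, |Y i b - Y i w.2| ≤ ζ) := by
  classical
  obtain ⟨D, φ, hD, hφ, hφ2⟩ := codes G1 X M ζ hζ c hc U hU
  obtain ⟨D', ψ, hD', hψ, hψ2⟩ := codes G1 Y M ζ hζ c hc V hV
  have hmaps : ∀ w ∈ W, (φ w.1, ψ w.2) ∈ D ×ˢ D' := by
    intro w hw
    have h1 := Finset.mem_product.1 (hW hw)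
    exact Finset.mem_product.2 ⟨hφ _ h1.1, hψ _ h1.2⟩
  have hne : (D ×ˢ D').Nonempty := ⟨_, hmaps _ hW0.choose_spec⟩
  have hpos : (0 : ℝ) < (D ×ˢ D').card := by
    exact_mod_cast Finset.card_pos.2 hne
  obtain ⟨z, hz, hz2⟩ := Finset.exists_le_card_fiber_of_nsmul_le_card_of_maps_to
    (M := ℝ) (b := (W.card : ℝ) / (D ×ˢ D').card) hmaps hne (by
      rw [nsmul_eq_mul]
      exact le_of_eq (mul_div_cancel₀ _ hpos.ne'))
  set Z := W.filter fun w => (φ w.1, ψ w.2) = z with hZ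
  have hWpos : (0 : ℝ) < W.card := by exact_mod_cast Finset.card_pos.2 hW0
  have hZpos : 0 < Z.card := by
    have h1 : (0 : ℝ) < Z.card := lt_of_lt_of_le (div_pos hWpos hpos) hz2
    exact_mod_cast h1
  obtain ⟨w, hw⟩ := Finset.card_pos.1 hZpos
  have hw2 := Finset.mem_filter.1 hw
  refine ⟨U.filter fun a => φ a = z.1, Finset.filter_subset _ _,
    V.filter fun b => ψ b = z.2, Finset.filter_subset _ _, ?_, w, hw2.1, ?_, ?_⟩
  · have h1 : Z.card ≤ (U.filter fun a => φ a = z.1).card * (V.filter fun b => ψ b = z.2).card := by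
      rw [← Finset.card_product]
      refine Finset.card_le_card fun v hv => ?_
      have h2 := Finset.mem_filter.1 hv
      have h3 := Finset.mem_product.1 (hW h2.1)
      rw [Finset.mem_product, Finset.mem_filter, Finset.mem_filter]
      refine ⟨⟨h3.1, ?_⟩, h3.2, ?_⟩
      · rw [← h2.2]
      · rw [← h2.2]
    have h2 : (W.card : ℝ) ≤ (D ×ˢ D').card * Z.card := by
      rwa [div_le_iff₀ hpos, mul_comm] at hz2
    have h3 : ((D ×ˢ D').card : ℝ) ≤ ((2 * ⌈M / ζ⌉₊ + 2 : ℝ) ^ c) ^ 2 := by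
      rw [Finset.card_product]
      have h4 : D.card * D'.card ≤ ((2 * ⌈M / ζ⌉₊ + 2) ^ c) ^ 2 := by
        rw [sq]
        exact Nat.mul_le_mul hD hD'
      exact_mod_cast h4
    have h5 : (Z.card : ℝ) ≤ ((U.filter fun a => φ a = z.1).card : ℝ) *
        (V.filter fun b => ψ b = z.2).card := by exact_mod_cast h1
    calc (W.card : ℝ) ≤ (D ×ˢ D').card * Z.card := h2
      _ ≤ _ := mul_le_mul h3 h5 (Nat.cast_nonneg _) (by positivity)
  · intro a ha i hi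
    refine hφ2 _ _ ?_ i hi
    rw [(Finset.mem_filter.1 ha).2, ← hw2.2]
  · intro b hb i hi
    refine hψ2 _ _ ?_ i hi
    rw [(Finset.mem_filter.1 hb).2, ← hw2.2]

end Pool.Agent.R979.NN
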